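import Pool.Agent.Lib.MP_ce3b04_lc.Hier.Core

/-!
# Module J4: the diagonal language is not in P
-/

namespace Pool.Agent.Lib.MP_ce3b04_lc.Hier

open Pool.Agent.Lib.PT Pool.Agent.Lib.MP_ce3b04_lc.Up

theorem poly_le_pow' (p : Polynomial ℕ) : ∃ d : ℕ, ∀ x : ℕ, 2 ≤ x → p.eval x ≤ x ^ d := by
  induction p using Polynomial.induction_on' with
  | add p q hp hq =>
    obtain ⟨d, hd⟩ := hp
    obtain ⟨e, he⟩ := hq
    refine ⟨max d e + 1, fun x hx => ?_⟩
    rw [Polynomial.eval_add]
    have h1 := (hd x hx).trans (Nat.pow_le_pow_right (by omega) (le_max_left d e))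
    have h2 := (he x hx).trans (Nat.pow_le_pow_right (by omega) (le_max_right d e))
    calc p.eval x + q.eval x ≤ x ^ max d e * 2 := by omega
      _ ≤ x ^ (max d e + 1) := by rw [pow_succ]; exact Nat.mul_le_mul_left _ hx
  | monomial n a =>
    refine ⟨a + n, fun x hx => ?_⟩
    rw [Polynomial.eval_monomial, pow_add]
    refine Nat.mul_le_mul_right _ ?_
    exact (Nat.lt_two_pow_self).le.trans (Nat.pow_le_pow_left hx a)

/-- Powers of two exceed polynomials. -/
theorem exists_le_two_pow (p : Polynomial ℕ) (m : ℕ) : ∃ n, m ≤ n ∧ p.eval n ≤ 2 ^ n := by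
  obtain ⟨d, hd⟩ := poly_le_pow' p
  have h := tendsto_pow_const_div_const_pow_of_one_lt d (one_lt_two : (1 : ℝ) < 2)
  have h1 := h.eventually (gt_mem_nhds (show (0 : ℝ) < 1 by norm_num))
  obtain ⟨N, hN⟩ := Filter.eventually_atTop.1 h1
  refine ⟨max (max N m) 2, le_trans (le_max_right N m) (le_max_left _ _), ?_⟩
  set n := max (max N m) 2 with hn
  have h2 := hN n (le_trans (le_max_left N m) (le_max_left _ _))
  have h3 : (n : ℝ) ^ d < 2 ^ n := by
    rwa [div_lt_one (by positivity)] at h2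
  have h4 : n ^ d < 2 ^ n := by exact_mod_cast h3
  exact (hd n (le_max_right _ _)).trans h4.le

theorem not_inP_diag (h1 : StCode) (h2 : StParseT) : ¬ InP diag := by
  rintro ⟨f, hf, hL⟩
  obtain ⟨x, p, hx⟩ := h1 f hf
  obtain ⟨v, hv⟩ := h2.2 x
  obtain ⟨n, hn, hp⟩ := exists_le_two_pow p v.length
  have h3 := hv (List.replicate (n - v.length) false)
  set w := List.replicate (n - v.length) false ++ v with hw
  have h4 : w.length = n := by
    rw [hw, List.length_append, List.length_replicate]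
    omega
  have h5 := hx w (2 ^ w.length) (by rw [h4]; exact hp)
  have h6 : w ∈ diag ↔ f w = false := by
    unfold diag
    rw [Set.mem_setOf_eq, h3, h5]
  rw [← hL w] at h6
  cases h7 : f w with
  | true => rw [h7] at h6; simp at h6
  | false => rw [h7] at h6; simp at h6

theorem stNotInP (h0 : StDiagEXP) (h1 : StCode) (h2 : StParseT) : StNotInP :=
  ⟨h0, not_inP_diag h1 h2⟩

end Pool.Agent.Lib.MP_ce3b04_lc.Hier
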