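import Pool.Agent.Lib.MP_ce3b04_lc.Hier.CodeSM

/-!
# Turing machines that decide in polynomial time have codes
-/

open Turing Turing.TM2 Function

namespace Pool.Agent.Lib.MP_ce3b04_lc.Hier

open Pool.Agent.Lib.PT Pool.Agent.Lib.MP_ce3b04_lc.Up

/-- CODE -/
theorem stCode : StCode := by
  classical
  intro f ⟨C⟩
  have _ := C.tm.kFin
  have _ := C.tm.ΛFin
  have _ := C.tm.σFin
  have _ := C.tm.Γk₀Fin
  obtain ⟨b, hb⟩ : ∃ b, ∀ l, height (C.tm.m l) ≤ b :=
    ⟨Finset.univ.sup fun l => height (C.tm.m l), fun l =>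
      Finset.le_sup (f := fun l => height (C.tm.m l)) (Finset.mem_univ l)⟩
  let x₁ : Σ k, C.tm.Γ k := ⟨C.tm.k₁, C.outputAlphabet.symm true⟩
  let M : SM := smOf C.tm.m C.tm.main C.tm.initialState C.tm.k₀ x₁
  let v : Bool → M.G := fun g => ⟨⟨C.tm.k₀, C.inputAlphabet.symm g⟩, Or.inl ⟨_, rfl⟩⟩
  have hg : (⟨C.tm.k₁, C.outputAlphabet.symm true⟩ : Σ k, C.tm.Γ k) ∈
    syset C.tm.m C.tm.k₀ x₁ := Or.inr (Or.inl rfl)
  let g₁ : M.G := ⟨⟨C.tm.k₁, C.outputAlphabet.symm true⟩, hg⟩
  obtain ⟨x, hx⟩ := exists_code M (v false) (v true) (fun _ h => decide (h C.tm.k₁ = some g₁))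
  refine ⟨x, Polynomial.C b * C.time, fun w N hN => ?_⟩
  rw [hx]
  have hw : (w.map fun b => bif b then v true else v false) = w.map v :=
    List.map_congr_left fun b _ => by cases b <;> rfl
  rw [hw]
  have hN' : b * C.time.eval (id w : List Bool).length ≤ N := by
    simpa only [Polynomial.eval_mul, Polynomial.eval_C, id] using hN
  have h1 := output_list C.tm b hb _ _ _ (C.outputsFun w) N hN'
  have h2 := (rel_conf C.tm.m C.tm.main C.tm.initialState C.tm.k₀ x₁
    (w.map C.inputAlphabet.invFun) N).2.2 C.tm.k₁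
  have h3 : List.map C.inputAlphabet.invFun (id w) = w.map C.inputAlphabet.invFun := rfl
  rw [h3] at h1
  rw [h1] at h2
  have h4 : inOf C.tm.m C.tm.main C.tm.initialState C.tm.k₀ x₁
      (w.map C.inputAlphabet.invFun) = w.map v := by
    clear hx hw hN hN' h1 h2 h3
    induction w with
    | nil => rfl
    | cons x l ih => exact congrArg (List.cons (v x)) ih
  rw [h4] at h2
  have h5 := h2.top (C.outputAlphabet.symm true) hg
  rw [Bool.eq_iff_iff, decide_eq_true_iff]
  have h6 : ((M.conf (w.map v) N).2 C.tm.k₁).head? = ((M.conf (w.map v) N).2 C.tm.k₁)[0]? :=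
    List.head?_eq_getElem?
  constructor
  · intro h
    have h7 := h5.1 (h6.symm.trans h)
    have h8 : some (C.outputAlphabet.invFun (f w)) = some (C.outputAlphabet.symm true) := h7
    exact C.outputAlphabet.symm.injective (Option.some.inj h8)
  · intro h
    refine h6.trans (h5.2 ?_)
    show some (C.outputAlphabet.invFun (f w)) = some (C.outputAlphabet.symm true)
    rw [h]
    rfl

end Pool.Agent.Lib.MP_ce3b04_lc.Hier
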