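import Pool.Agent.Lib.MP_ce3b04_lc.Hier.Core
import Pool.Agent.Lib.MP_ce3b04_lc.Up.TMPT

/-!
# Every machine with several stacks has a code

`exists_code`: for a machine `M` with several stacks, two letters and a test `acc` of the state and
the tops of the stacks there is a tree `x` such that the universal machine with code `x` computes
the value of `acc` for the configurations of `M`.
-/

open Function

namespace Pool.Agent.Lib.MP_ce3b04_lc.Hier

open Pool.Agent.Lib.PT Pool.Agent.Lib.MP_ce3b04_lc.Up

theorem asL_tr (l : List T) : asL (tr l) = l := by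
  induction l with
  | nil => rfl
  | cons a l ih =>
    show a :: asL (tr l) = a :: l
    rw [ih]

namespace CodeSM

noncomputable section

variable (M : SM)

/-- The tree of a state. -/
def eQ (q : M.Q) : T := (encFin M.Q).tr q

/-- The tree of a letter. -/
def eG (g : M.G) : T := (encFin M.G).tr g

theorem eQ_inj : Injective (eQ M) := (encInj_encFin M.Q).inj

theorem eG_inj : Injective (eG M) := (encInj_encFin M.G).inj

open Classical in
/-- The stacks except for the input stack. -/
def rest : List M.K :=
  letI : Fintype M.K := Fintype.ofFinite M.K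
  (Finset.univ.erase M.k₀).toList

/-- All stacks, the input stack is the first one. -/
def ks : List M.K := M.k₀ :: rest M

theorem ne_of_mem_rest {k : M.K} (h : k ∈ rest M) : k ≠ M.k₀ := by
  classical
  letI : Fintype M.K := Fintype.ofFinite M.K
  simp only [rest, Finset.mem_toList, Finset.mem_erase] at h
  exact h.1

theorem mem_ks (k : M.K) : k ∈ ks M := by
  classical
  letI : Fintype M.K := Fintype.ofFinite M.K
  by_cases h : k = M.k₀
  · rw [h]; exact List.mem_cons_self
  · refine List.mem_cons_of_mem _ ?_
    simp only [rest, Finset.mem_toList, Finset.mem_erase]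
    exact ⟨h, Finset.mem_univ _⟩

/-- The tree of the top of a stack. -/
def topE : Option M.G → T
  | none => .nil
  | some g => .cons (eG M g) .nil

theorem topE_inj : Injective (topE M) := by
  intro a b h
  cases a with
  | none =>
    cases b with
    | none => rfl
    | some b => simp [topE] at h
  | some a =>
    cases b with
    | none => simp [topE] at h
    | some b =>
      simp only [topE, T.cons.injEq, and_true] at h
      rw [eG_inj M h]

/-- The key of a state and tops of the stacks. -/
def keyOf (p : M.Q × (M.K → Option M.G)) : T :=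
  .cons (eQ M p.1) (tr ((ks M).map fun k => topE M (p.2 k)))

theorem keyOf_inj : Injective (keyOf M) := by
  rintro ⟨q, h⟩ ⟨q', h'⟩ e
  simp only [keyOf, T.cons.injEq] at e
  obtain ⟨e1, e2⟩ := e
  have e3 : ((ks M).map fun k => topE M (h k)) = (ks M).map fun k => topE M (h' k) :=
    EncInj.inj e2
  have e4 : h = h' := by
    funext k
    exact topE_inj M (List.map_inj_left.1 e3 k (mem_ks M k))
  rw [eQ_inj M e1, e4]

/-- The tree of an action. -/
def actE : Act M.G → T
  | .keep => .nil
  | .pop => .cons .nil .nil
  | .push g => .cons (.cons .nil .nil) (eG M g)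

theorem act_actE (a : Act M.G) (s : List M.G) :
    act (actE M a) (s.map (eG M)) = (a.run s).map (eG M) := by
  cases a with
  | keep => rfl
  | pop => simp [act, actE, T.isCons, T.hd, Act.run]
  | push g => simp [act, actE, T.isCons, T.hd, T.tl, Act.run]

/-- The value of a key. -/
def valOf (p : M.Q × (M.K → Option M.G)) : T :=
  .cons (eQ M (M.δ p.1 p.2)) (tr ((ks M).map fun k => actE M (M.act p.1 p.2 k)))

open Classical in
/-- All pairs. -/
def allP : List (M.Q × (M.K → Option M.G)) :=
  letI : Fintype (M.Q × (M.K → Option M.G)) := Fintype.ofFinite _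
  (Finset.univ : Finset (M.Q × (M.K → Option M.G))).toList

theorem mem_allP (p : M.Q × (M.K → Option M.G)) : p ∈ allP M := by
  simp [allP]

/-- The table. -/
def tab : List T := (allP M).map fun p => .cons (keyOf M p) (valOf M p)

theorem look_tab (p : M.Q × (M.K → Option M.G)) : look (tab M) (keyOf M p) = valOf M p := by
  classical
  unfold look
  have h1 : T.cons (keyOf M p) (valOf M p) ∈
      (tab M).filter fun e => decide (e.hd = keyOf M p) := by
    rw [List.mem_filter]
    refine ⟨List.mem_map.2 ⟨p, mem_allP M p, rfl⟩, ?_⟩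
    exact decide_eq_true rfl
  cases h : (tab M).filter fun e => decide (e.hd = keyOf M p) with
  | nil => rw [h] at h1; simp at h1
  | cons e l =>
    have h2 : e ∈ (tab M).filter fun e => decide (e.hd = keyOf M p) := by
      rw [h]; exact List.mem_cons_self
    rw [List.mem_filter] at h2
    obtain ⟨h3, h4⟩ := h2
    obtain ⟨p', _, rfl⟩ := List.mem_map.1 h3
    have h5 : keyOf M p' = keyOf M p := of_decide_eq_true h4
    rw [keyOf_inj M h5]
    rfl

/-- The configuration as a configuration of the universal machine. -/
def E (c : M.Q × (M.K → List M.G)) : Cf := (eQ M c.1, (ks M).map fun k => (c.2 k).map (eG M))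

theorem top_map (s : List M.G) : top (s.map (eG M)) = topE M s.head? := by
  cases s with
  | nil => rfl
  | cons a s => rfl

theorem key_E (c : M.Q × (M.K → List M.G)) :
    key (E M c) = keyOf M (c.1, fun k => (c.2 k).head?) := by
  simp only [key, E, keyOf, List.map_map]
  congr 3
  funext k
  exact top_map M (c.2 k)

theorem stepC_E (c : M.Q × (M.K → List M.G)) : stepC (tab M) (E M c) = E M (M.step c) := by
  simp only [stepC, key_E, look_tab]
  simp only [valOf, T.hd, T.tl, asL_tr]
  refine Prod.ext rfl ?_
  show List.map _ (List.zip _ (List.map _ _)) = List.map _ _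
  rw [List.zip_map', List.map_map]
  refine List.map_congr_left fun k _ => ?_
  exact act_actE M _ _

open Classical in
/-- The accepting keys. -/
def accKeys (acc : M.Q → (M.K → Option M.G) → Bool) : List T :=
  ((allP M).filter fun p => acc p.1 p.2).map (keyOf M)

/-- The code. -/
def code (a₀ a₁ : M.G) (acc : M.Q → (M.K → Option M.G) → Bool) : T :=
  .cons (eQ M M.q₀) (.cons (eG M a₀) (.cons (eG M a₁) (.cons (tr ((rest M).map fun _ => T.nil))
    (.cons (tr (accKeys M acc)) (tr (tab M))))))

theorem initC_code (a₀ a₁ : M.G) (acc : M.Q → (M.K → Option M.G) → Bool) (w : List Bool) :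
    initC (code M a₀ a₁ acc) w = E M (M.conf (w.map fun b => bif b then a₁ else a₀) 0) := by
  have h0 : (M.conf (w.map fun b => bif b then a₁ else a₀) 0).2 M.k₀ =
      w.map fun b => bif b then a₁ else a₀ := if_pos rfl
  have h1 : ∀ k ∈ rest M, (M.conf (w.map fun b => bif b then a₁ else a₀) 0).2 k = [] :=
    fun k hk => if_neg (ne_of_mem_rest M hk)
  refine Prod.ext rfl ?_
  show _ :: _ = _ :: _
  simp only [code, T.hd, T.tl, asL_tr]
  rw [h0]
  congr 1
  · rw [List.map_map]
    refine List.map_congr_left fun b _ => ?_
    cases b <;> rfl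
  · rw [List.map_map]
    refine List.map_congr_left fun k hk => ?_
    rw [h1 k hk]
    rfl

theorem accC_code (a₀ a₁ : M.G) (acc : M.Q → (M.K → Option M.G) → Bool)
    (c : M.Q × (M.K → List M.G)) :
    accC (code M a₀ a₁ acc) (E M c) = acc c.1 (fun k => (c.2 k).head?) := by
  classical
  rw [Bool.eq_iff_iff]
  simp only [accC, code, T.hd, T.tl, asL_tr, accKeys, key_E, List.any_map, List.any_filter]
  rw [List.any_eq_true]
  constructor
  · rintro ⟨p, _, h⟩
    simp only [comp, Bool.and_eq_true, decide_eq_true_eq] at h
    rw [keyOf_inj M h.2] at h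
    exact h.1
  · intro h
    refine ⟨(c.1, fun k => (c.2 k).head?), mem_allP M _, ?_⟩
    simp [h]

end

end CodeSM

/-- **Every machine has a code.** -/
theorem exists_code (M : SM) (a₀ a₁ : M.G) (acc : M.Q → (M.K → Option M.G) → Bool) :
    ∃ x : T, ∀ (w : List Bool) (N : ℕ),
      runU x w N = acc (M.conf (w.map fun b => bif b then a₁ else a₀) N).1
        (fun k => ((M.conf (w.map fun b => bif b then a₁ else a₀) N).2 k).head?) := by
  refine ⟨CodeSM.code M a₀ a₁ acc, fun w N => ?_⟩
  have h1 : asL (CodeSM.code M a₀ a₁ acc).tl.tl.tl.tl.tl = CodeSM.tab M := by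
    simp only [CodeSM.code, T.tl, asL_tr]
  have h2 : ∀ N : ℕ, (stepC (CodeSM.tab M))^[N] (initC (CodeSM.code M a₀ a₁ acc) w) =
      CodeSM.E M (M.conf (w.map fun b => bif b then a₁ else a₀) N) := by
    intro N
    induction N with
    | zero => exact CodeSM.initC_code M a₀ a₁ acc w
    | succ N ih =>
      rw [iterate_succ_apply', ih, CodeSM.stepC_E]
      rfl
  rw [runU, h1, h2, CodeSM.accC_code]

end Pool.Agent.Lib.MP_ce3b04_lc.Hier
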