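import Pool.Agent.Lib.MP_ce3b04_lc.Up.Core

/-!
# EXPTIME is not contained in P: a universal machine on trees, statements of the modules

A code is a tree: initial state, letters for `false` and `true`, one entry for each further stack,
the list of the accepting keys, the table.  The key of a configuration is the state with the tops
of the stacks; an entry of the table is a key together with the new state and the actions on the
stacks.
-/

namespace Pool.Agent.Lib.MP_ce3b04_lc.Hier

open Pool.Agent.Lib.PT Pool.Agent.Lib.MP_ce3b04_lc.Up

/-- The list with the given tree: `tr (asL x) = x`. -/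
def asL : T → List T
  | .nil => []
  | .cons a b => a :: asL b

/-- Configurations: the state and the stacks. -/
abbrev Cf : Type := T × List (List T)

/-- The top of a stack. -/
def top (s : List T) : T := bif s.isEmpty then .nil else .cons (s.headD .nil) .nil

/-- The state and the tops of the stacks. -/
def key (c : Cf) : T := .cons c.1 (tr (c.2.map top))

open Classical in
/-- The value of a key in the table. -/
noncomputable def look (tab : List T) (k : T) : T :=
  ((tab.filter fun e => decide (e.hd = k)).headD .nil).tl

/-- The action `a` on a stack: nothing, pop, or push. -/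
def act (a : T) (s : List T) : List T :=
  bif a.isCons then (bif a.hd.isCons then a.tl :: s else s.tail) else s

/-- One step. -/
noncomputable def stepC (tab : List T) (c : Cf) : Cf :=
  ((look tab (key c)).hd, ((asL (look tab (key c)).tl).zip c.2).map fun p => act p.1 p.2)

/-- The initial configuration of the machine with code `x`. -/
def initC (x : T) (w : List Bool) : Cf :=
  (x.hd, (w.map fun b => bif b then x.tl.tl.hd else x.tl.hd) ::
    (asL x.tl.tl.tl.hd).map fun _ => [])

open Classical in
/-- Is the configuration accepting? -/
noncomputable def accC (x : T) (c : Cf) : Bool :=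
  (asL x.tl.tl.tl.tl.hd).any fun k => decide (k = key c)

/-- **The universal machine**: does the machine with code `x` accept `w` after `N` steps? -/
noncomputable def runU (x : T) (w : List Bool) (N : ℕ) : Bool :=
  accC x ((stepC (asL x.tl.tl.tl.tl.tl))^[N] (initC x w))

/-- One step of the reader of codes (postfix notation). -/
def rdT (s : List T) (b : Bool) : List T :=
  bif b then (.cons (s.tail.headD .nil) (s.headD .nil)) :: s.tail.tail else .nil :: s

/-- The tree at the end of a word. -/
def parseT (w : List Bool) : T := (w.foldl rdT []).headD .nil

/-- The diagonal language. -/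
def diag : Set (List Bool) := {w | runU (parseT w) w (2 ^ w.length) = false}

/-- The language is decided by a Turing machine in polynomial time. -/
def InP {Γ : Type} (L : Set (List Γ)) : Prop :=
  ∃ f : List Γ → Bool, Nonempty (Turing.TM2ComputableInPolyTime (id : List Γ → List Γ)
    Computability.encodeBool f) ∧ ∀ x, f x = true ↔ x ∈ L

/-- J1 -/
def StRunPT : Prop := PTime fun p : (T × List Bool) × ℕ => runU p.1.1 p.1.2 p.2

/-- J1 -/
def StDiagEXP : Prop := InEXP diag

/-- J2: machines that decide in polynomial time have codes -/
def StCode : Prop := ∀ f : List Bool → Bool,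
  Nonempty (Turing.TM2ComputableInPolyTime (id : List Bool → List Bool)
    Computability.encodeBool f) →
  ∃ (x : T) (p : Polynomial ℕ), ∀ (w : List Bool) (N : ℕ), p.eval w.length ≤ N →
    runU x w N = f w

/-- J3 -/
def StParseT : Prop := PTime parseT ∧
  ∀ x : T, ∃ v : List Bool, ∀ pad : List Bool, parseT (pad ++ v) = x

/-- J4 -/
def StNotInP : Prop := InEXP diag ∧ ¬ InP diag

/-- J5: P is closed under reductions computable in polynomial time. -/
def StPred : Prop := ∀ (Γ Δ : Type) [Fintype Γ] [Fintype Δ] (L : Set (List Γ)) (L' : Set (List Δ))
  (f : List Γ → List Δ), Nonempty (Turing.TM2ComputableInPolyTime (id : List Γ → List Γ)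
    (id : List Δ → List Δ) f) → (∀ x, x ∈ L ↔ f x ∈ L') → InP L' → InP L

end Pool.Agent.Lib.MP_ce3b04_lc.Hier
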