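import Pool.Agent.Lib.MP_ce3b04_lc.Hier.Core

/-!
# The reader of the codes of machines
-/

namespace Pool.Agent.Lib.MP_ce3b04_lc.Hier

open Pool.Agent.Lib.PT Pool.Agent.Lib.MP_ce3b04_lc.Up

namespace Parse

/-- The postfix code of a tree. -/
def post : T → List Bool
  | .nil => [false]
  | .cons a b => post a ++ (post b ++ [true])

theorem foldl_post (x : T) : ∀ s : List T, (post x).foldl rdT s = x :: s := by
  induction x with
  | nil => intro s; rfl
  | cons a b iha ihb =>
    intro s
    rw [post, List.foldl_append, iha, List.foldl_append, ihb]
    rfl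

theorem ptime_cons {α : Type} [Enc α] {f g : α → T} (hf : PTime f) (hg : PTime g) :
    PTime fun a => T.cons (f a) (g a) :=
  (PTime.same (fun p : T × T => T.cons p.1 p.2) fun _ => rfl).comp (hf.pair hg)

theorem sz_rdT (s : List T) (b : Bool) : sz (rdT s b) ≤ sz s + 4 := by
  have h0 : sz (T.nil : T) = 1 := rfl
  have hc : ∀ x y : T, sz (T.cons x y) = sz x + sz y + 1 := fun _ _ => rfl
  cases b with
  | false =>
    simp only [rdT, cond_false, sz_cons, h0]
    omega
  | true =>
    cases s with
    | nil =>
      simp only [rdT, cond_true, List.tail_nil, List.headD_nil, sz_cons, sz_nil, h0, hc]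
      omega
    | cons x s =>
      cases s with
      | nil =>
        simp only [rdT, cond_true, List.tail_nil, List.tail_cons, List.headD_nil,
          List.headD_cons, sz_cons, sz_nil, h0, hc]
        omega
      | cons y s =>
        simp only [rdT, cond_true, List.tail_cons, List.headD_cons, sz_cons, hc]
        omega

theorem sz_foldl (l : List Bool) (s : List T) : sz (l.foldl rdT s) ≤ sz s + 4 * l.length := by
  induction l generalizing s with
  | nil => simp
  | cons b l ih =>
    rw [List.foldl_cons, List.length_cons]
    have h1 := ih (rdT s b)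
    have h2 := sz_rdT s b
    omega

theorem ptime_rdT : PTime fun p : List Bool × List T × Bool => rdT p.2.1 p.2.2 := by
  have h1 : PTime fun p : List Bool × List T × Bool => p.2.2 := by fun_prop
  have h2 : PTime fun p : List Bool × List T × Bool => p.2.1.tail.headD T.nil := by fun_prop
  have h3 : PTime fun p : List Bool × List T × Bool => p.2.1.headD T.nil := by fun_prop
  have h4 : PTime fun p : List Bool × List T × Bool => p.2.1.tail.tail := by fun_prop
  have h5 : PTime fun p : List Bool × List T × Bool => T.nil :: p.2.1 := by fun_prop
  exact PTime.cond h1 ((ptime_cons h2 h3).cons h4) h5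

theorem ptime_parseT : PTime parseT := by
  have hB : PB fun w : List Bool => 4 * sz w + 1 :=
    ((PB.const 4).mul PB.sz).add (PB.const 1)
  have h : PTime fun w : List Bool => w.foldl rdT [] := by
    refine PTime.foldl (l := fun w : List Bool => w) (s := fun _ => ([] : List T))
      (f := fun _ s b => rdT s b) PTime.id (PTime.const _) ptime_rdT hB ?_
    intro w l₁ l₂ e
    show sz (l₁.foldl rdT []) ≤ 4 * sz w + 1
    have h1 := sz_foldl l₁ []
    have h2 : l₁.length ≤ w.length := by
      rw [e, List.length_append]
      omega
    have h3 := length_le_sz w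
    rw [sz_nil] at h1
    omega
  have h2 : PTime fun w : List Bool => (w.foldl rdT []).headD T.nil := by fun_prop
  exact h2

end Parse

open Parse in
/-- The reader of codes. -/
theorem stParseT : StParseT := by
  refine ⟨ptime_parseT, fun x => ⟨post x, fun pad => ?_⟩⟩
  unfold parseT
  rw [List.foldl_append, foldl_post]
  rfl

end Pool.Agent.Lib.MP_ce3b04_lc.Hier
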