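import Pool.Agent.Lib.MP_ce3b04_lc.Hier.Core
import Pool.Agent.Lib.MP_ce3b04_lc.Up.NP
import Pool.Agent.Lib.MP_ce3b04_lc.Up.TMPT

/-!
# Module J5: P is closed under reductions computable in polynomial time
-/

namespace Pool.Agent.Lib.MP_ce3b04_lc.Hier

open Pool.Agent.Lib.PT Pool.Agent.Lib.MP_ce3b04_lc.Up Turing

theorem stPred : StPred := by
  intro Γ Δ _ _ L L' f hf hL hL'
  obtain ⟨g, hg, hgL⟩ := hL'
  let _ : Enc Γ := NP.encOf Γ
  have : EncInj Γ := NP.encOf_inj Γ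
  let _ : Enc Δ := NP.encOf Δ
  have : EncInj Δ := NP.encOf_inj Δ
  obtain ⟨F, hF, hF'⟩ := stTMPT (List Γ) (List Δ) Γ Δ id id f hf
  obtain ⟨G, hG, hG'⟩ := stTMPT (List Δ) Bool Δ Bool id Computability.encodeBool g hg
  refine ⟨fun x => g (f x), ptime_tm' (fun _ _ e => EncInj.inj e) (F := fun x => G (F x))
    (hG.comp hF) fun x => ?_, fun x => ?_⟩
  · have h1 : F x = f x := hF' x
    show G (F (id x)) = _
    rw [id, h1]
    exact hG' (f x)
  · rw [hgL, hL]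

end Pool.Agent.Lib.MP_ce3b04_lc.Hier
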