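import Pool.Agent.Lib.MP_ce3b04_lc.Hier.Parse
import Pool.Agent.Lib.MP_ce3b04_lc.Up.PTP
import Pool.Agent.Lib.MP_0b43f8_lc.TM

/-!
# The universal machine runs in polynomial time, the diagonal language is in EXPTIME
-/

namespace Pool.Agent.Lib.MP_ce3b04_lc.Hier

open Pool.Agent.Lib.PT Pool.Agent.Lib.MP_ce3b04_lc.Up Pool.Agent.Lib.MP_0b43f8_lc

noncomputable section

namespace Run

theorem tr_asL (x : T) : tr (asL x) = x := by
  induction x with
  | nil => rfl
  | cons a b _ ihb =>
    rw [asL, tr_cons, ihb]
    rfl

theorem tr_asL' (x : T) : tr (asL x) = tr x := tr_asL x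

theorem sz_asL (x : T) : sz (asL x) = sz x := by
  unfold sz
  rw [tr_asL']

variable {α : Type} [Enc α]

theorem ptime_asL {f : α → T} (hf : PTime f) : PTime fun a => asL (f a) :=
  (PTime.same asL tr_asL').comp hf

theorem ptime_hd {f : α → T} (hf : PTime f) : PTime fun a => (f a).hd := PTime.hd.comp hf

theorem ptime_tl {f : α → T} (hf : PTime f) : PTime fun a => (f a).tl := PTime.tl.comp hf

theorem ptime_isCons {f : α → T} (hf : PTime f) : PTime fun a => (f a).isCons :=
  PTime.isCons.comp hf

theorem ptime_trL {f : α → List T} (hf : PTime f) : PTime fun a => tr (f a) :=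
  (PTime.same (fun l : List T => tr l) fun _ => rfl).comp hf

theorem ptime_look {tab : α → List T} {k : α → T} (ht : PTime tab) (hk : PTime k) :
    PTime fun a => look (tab a) (k a) := by
  have h1 : PTime fun p : α × T => decide (p.2.hd = k p.1) :=
    PTime.eq (ptime_hd (by fun_prop)) (hk.comp (g := fun p : α × T => p.1) (by fun_prop))
  have h2 : PTime fun a => (tab a).filter fun e => decide (e.hd = k a) :=
    PTime.filter (f := fun a (e : T) => decide (e.hd = k a)) ht h1
  exact ptime_tl (h2.headD (PTime.const T.nil))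

theorem ptime_act {x : α → T} {s : α → List T} (hx : PTime x) (hs : PTime s) :
    PTime fun a => act (x a) (s a) :=
  PTime.cond (ptime_isCons hx) (PTime.cond (ptime_isCons (ptime_hd hx)) ((ptime_tl hx).cons hs)
    hs.tail) hs

theorem ptime_top {s : α → List T} (hs : PTime s) : PTime fun a => top (s a) :=
  PTime.cond hs.isEmpty (PTime.const T.nil)
    (Parse.ptime_cons (hs.headD (PTime.const T.nil)) (PTime.const T.nil))

theorem ptime_key {c : α → Cf} (hc : PTime c) : PTime fun a => key (c a) := by
  have h1 : PTime fun a => (c a).2 := by fun_prop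
  have h2 : PTime fun a => (c a).2.map top :=
    PTime.map (f := fun _ s => top s) h1 (ptime_top (by fun_prop))
  exact Parse.ptime_cons (by fun_prop) (ptime_trL h2)

theorem ptime_stepC {tab : α → List T} {c : α → Cf} (ht : PTime tab) (hc : PTime c) :
    PTime fun a => stepC (tab a) (c a) := by
  have h1 := ptime_look ht (ptime_key hc)
  have h2 : PTime fun a => (c a).2 := by fun_prop
  have h3 : PTime fun a => (asL (look (tab a) (key (c a))).tl).zip (c a).2 :=
    pt_zip (ptime_asL (ptime_tl h1)) h2
  exact (ptime_hd h1).pair (PTime.map (f := fun _ (p : T × List T) => act p.1 p.2) h3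
    (ptime_act (by fun_prop) (by fun_prop)))

theorem ptime_initC {x : α → T} {w : α → List Bool} (hx : PTime x) (hw : PTime w) :
    PTime fun a => initC (x a) (w a) := by
  have h1 : PTime fun a => (w a).map fun b => bif b then (x a).tl.tl.hd else (x a).tl.hd := by
    refine PTime.map (f := fun a b => bif b then (x a).tl.tl.hd else (x a).tl.hd) hw ?_
    have h : PTime fun p : α × Bool => x p.1 := hx.comp (g := fun p : α × Bool => p.1) (by fun_prop)
    exact PTime.cond (by fun_prop) (ptime_hd (ptime_tl (ptime_tl h))) (ptime_hd (ptime_tl h))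
  have h2 : PTime fun a => (asL (x a).tl.tl.tl.hd).map fun _ => ([] : List T) :=
    PTime.map (f := fun _ (_ : T) => ([] : List T))
      (ptime_asL (ptime_hd (ptime_tl (ptime_tl (ptime_tl hx))))) (PTime.const _)
  exact (ptime_hd hx).pair (h1.cons h2)

theorem ptime_accC {x : α → T} {c : α → Cf} (hx : PTime x) (hc : PTime c) :
    PTime fun a => accC (x a) (c a) := by
  refine PTime.any (f := fun a (k : T) => decide (k = key (c a)))
    (ptime_asL (ptime_hd (ptime_tl (ptime_tl (ptime_tl (ptime_tl hx)))))) ?_
  exact PTime.eq (by fun_prop)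
    ((ptime_key hc).comp (g := fun p : α × T => p.1) (by fun_prop))

/-! ### Sizes -/

theorem sz_consT (a b : T) : sz (T.cons a b) = sz a + sz b + 1 := rfl

theorem sz_hd (x : T) : sz x.hd ≤ sz x := by
  cases x with
  | nil => exact le_rfl
  | cons a b =>
    rw [sz_consT]
    show sz a ≤ _
    omega

theorem sz_tl (x : T) : sz x.tl ≤ sz x := by
  cases x with
  | nil => exact le_rfl
  | cons a b =>
    rw [sz_consT]
    show sz b ≤ _
    omega

theorem sz_look (tab : List T) (k : T) : sz (look tab k) ≤ sz tab := by
  unfold look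
  refine (sz_tl _).trans ?_
  have h1 := sz_pos tab
  generalize hl : (tab.filter fun e => decide (e.hd = k)) = l
  cases l with
  | nil =>
    show sz (T.nil : T) ≤ _
    exact h1
  | cons e l =>
    show sz e ≤ _
    refine sz_mem_le (List.mem_of_mem_filter (p := fun e => decide (e.hd = k)) (l := tab) ?_)
    rw [hl]
    exact List.mem_cons_self

theorem sz_tail_le {β : Type} [Enc β] (s : List β) : sz s.tail ≤ sz s := by
  cases s with
  | nil => exact le_rfl
  | cons x s => rw [sz_cons]; show sz s ≤ _; omega

theorem sz_act (x : T) (s : List T) : sz (act x s) ≤ sz x + sz s := by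
  unfold act
  cases x with
  | nil =>
    show sz s ≤ _
    omega
  | cons a b =>
    cases a with
    | nil =>
      show sz s.tail ≤ _
      have := sz_tail_le s
      omega
    | cons c d =>
      show sz (b :: s) ≤ _
      rw [sz_cons, sz_consT]
      omega

theorem sz_zipact (A : List T) (S : List (List T)) :
    sz ((A.zip S).map fun p => act p.1 p.2) ≤ sz A + sz S := by
  induction A generalizing S with
  | nil =>
    simp only [List.zip_nil_left, List.map_nil, sz_nil]
    omega
  | cons a A ih =>
    cases S with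
    | nil =>
      simp only [List.zip_nil_right, List.map_nil, sz_nil]
      omega
    | cons s S =>
      rw [List.zip_cons_cons, List.map_cons, sz_cons, sz_cons, sz_cons]
      have h1 := ih S
      have h2 := sz_act a s
      simp only
      omega

theorem sz_stepC2 (tab : List T) (c : Cf) : sz (stepC tab c).2 ≤ sz c.2 + sz tab := by
  unfold stepC
  have h1 := sz_zipact (asL (look tab (key c)).tl) c.2
  rw [sz_asL] at h1
  have h2 := sz_tl (look tab (key c))
  have h3 := sz_look tab (key c)
  simp only
  omega

theorem sz_stepC1 (tab : List T) (c : Cf) : sz (stepC tab c).1 ≤ sz tab := by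
  unfold stepC
  exact (sz_hd _).trans (sz_look _ _)

theorem sz_iter (tab : List T) (c : Cf) (n : ℕ) :
    sz ((stepC tab)^[n] c) ≤ sz c + sz tab + n * sz tab := by
  have h2 : ∀ n : ℕ, sz ((stepC tab)^[n] c).2 ≤ sz c.2 + n * sz tab := by
    intro n
    induction n with
    | zero => simp
    | succ n ih =>
      rw [Function.iterate_succ_apply']
      have := sz_stepC2 tab ((stepC tab)^[n] c)
      rw [Nat.succ_mul]
      omega
  have h1 : ∀ n : ℕ, sz ((stepC tab)^[n] c).1 ≤ sz c.1 + sz tab := by
    intro n
    cases n with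
    | zero => simp
    | succ n =>
      rw [Function.iterate_succ_apply']
      have := sz_stepC1 tab ((stepC tab)^[n] c)
      omega
  have e : ∀ d : Cf, sz d = sz d.1 + sz d.2 + 1 := fun d => rfl
  rw [e, e c]
  have h3 := h1 n
  have h4 := h2 n
  omega

end Run

open Run

/-- The universal machine runs in polynomial time. -/
theorem stRunPT : StRunPT := by
  have hx : PTime fun p : (T × List Bool) × ℕ => p.1.1 := by fun_prop
  have hw : PTime fun p : (T × List Bool) × ℕ => p.1.2 := by fun_prop
  have hN : PTime fun p : (T × List Bool) × ℕ => p.2 := by fun_prop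
  have htab : PTime fun p : (T × List Bool) × ℕ => asL p.1.1.tl.tl.tl.tl.tl :=
    ptime_asL (ptime_tl (ptime_tl (ptime_tl (ptime_tl (ptime_tl hx)))))
  have hin := ptime_initC hx hw
  have hB : PB fun p : (T × List Bool) × ℕ => sz (initC p.1.1 p.1.2)
      + sz (asL p.1.1.tl.tl.tl.tl.tl) + sz p.2 * sz (asL p.1.1.tl.tl.tl.tl.tl) :=
    (hin.sz_le.add htab.sz_le).add (hN.sz_le.mul htab.sz_le)
  have hst : PTime fun q : ((T × List Bool) × ℕ) × Cf =>
      stepC (asL q.1.1.1.tl.tl.tl.tl.tl) q.2 :=
    ptime_stepC (htab.comp (g := fun q : ((T × List Bool) × ℕ) × Cf => q.1) (by fun_prop))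
      (by fun_prop)
  have hit := PTime.iterate (n := fun p : (T × List Bool) × ℕ => p.2)
    (s := fun p => initC p.1.1 p.1.2)
    (f := fun p c => stepC (asL p.1.1.tl.tl.tl.tl.tl) c) hN hin hst hB (by
      intro p i hi
      refine (sz_iter _ _ i).trans ?_
      have h1 : i ≤ sz p.2 := by rw [sz_nat]; omega
      have := Nat.mul_le_mul_right (sz (asL p.1.1.tl.tl.tl.tl.tl)) h1
      omega)
  exact ptime_accC hx hit

namespace Run

/-- The algorithm for the diagonal language. -/
def algD (w : List Bool) : Bool := !(runU (parseT w) w (2 ^ w.length))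

/-- The bound for the running time. -/
def gD (w : List Bool) : ℕ := 2 * w.length + (2 * 2 + (2 * 2 ^ w.length + sz w)) + 6

theorem tb_algD : TB gD fun w => [algD w] := by
  have hsz : ∀ w, sz w ≤ gD w := fun w => by unfold gD; omega
  have h1 : TB gD fun w => (2 ^ w.length, w) :=
    TB.pow (e := fun w : List Bool => w.length) (b := fun _ => 2) (s := fun w : List Bool => w)
      (by fun_prop) (PTime.const 2) (by fun_prop) hsz (fun w => by omega)
      (fun w => by unfold gD; omega)
  have hq1 : PTime fun q : ℕ × List Bool => q.1 := by fun_prop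
  have hq2 : PTime fun q : ℕ × List Bool => q.2 := by fun_prop
  have h4 : PTime fun q : ℕ × List Bool => parseT q.2 := PTime.comp stParseT.1 hq2
  have h3 : PTime fun q : ℕ × List Bool => !(runU (parseT q.2) q.2 q.1) :=
    (PTime.comp (f := fun p : (T × List Bool) × ℕ => runU p.1.1 p.1.2 p.2)
      (g := fun q : ℕ × List Bool => ((parseT q.2, q.2), q.1)) stRunPT
      ((h4.pair hq2).pair hq1)).not
  have h2 : PTime fun q : ℕ × List Bool => [!(runU (parseT q.2) q.2 q.1)] :=
    PTime.cons h3 (PTime.const [])
  have h5 := TB.comp h2 h1 hsz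
  simp only at h5
  unfold algD
  exact h5

/-- The bound in terms of the length. -/
def bD (n : ℕ) : ℕ := 2 * n + (2 * 2 + (2 * 2 ^ n + (n * 4 + 1))) + 6

theorem gD_le (w : List Bool) : gD w ≤ bD w.length := by
  have h : sz w ≤ w.length * (3 + 1) + 1 := sz_le_of_forall (B := 3) fun x _ => sz_bool x
  unfold gD bD
  omega

theorem bD_le (n : ℕ) : bD n ≤ 2 ^ (n + 5) := by
  unfold bD
  have h1 : n < 2 ^ n := Nat.lt_two_pow_self
  have h2 : 2 ^ (n + 5) = 2 ^ n * 32 := by rw [pow_add]; norm_num
  rw [h2]
  omega

end Run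

/-- The diagonal language is in EXPTIME. -/
theorem stDiagEXP : StDiagEXP := by
  classical
  obtain ⟨M, p, hM⟩ := tb_tm tr_bool_injective (f := fun w => [algD w]) (g := gD)
    (fun w => by unfold gD; omega) tb_algD
  obtain ⟨d, hd⟩ := poly_le_pow p
  have h1 : ∀ w : List Bool, Outputs M w [algD w] (p.eval (bD w.length)) := fun w =>
    (hM w).mono (eval_mono p (gD_le w))
  refine ⟨algD, ⟨⟨M.tm, M.inputAlphabet, M.outputAlphabet⟩, fun n => p.eval (bD n),
    fun w => (h1 w).some⟩, (Polynomial.X + 5) * Polynomial.C d, fun w => ?_, fun n => ?_⟩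
  · unfold algD diag
    simp
  · have h2 : 2 ≤ bD n := by unfold bD; omega
    refine (hd _ h2).trans ?_
    refine (Nat.pow_le_pow_left (bD_le n) d).trans ?_
    rw [← pow_mul]
    refine Nat.pow_le_pow_right (by omega) (le_of_eq ?_)
    simp

end

end Pool.Agent.Lib.MP_ce3b04_lc.Hier
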